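import Pool.Agent.Helper82.PN.St
import Pool.Agent.Helper9.SU.M_ALL

/-!
# Project PN, module TYA: trivial level of distribution
-/

set_option autoImplicit false

namespace Pool.Agent.Helper72.PN

open Finset Filter Topology
open Pool.Agent.Helper82.PN
open Pool.Agent.Helper15.AB (StDB StMT)
open Pool.Agent.Helper9.TW (gm Qs fm StMER StC9)
open Pool.Agent.Helper18.TR (StLevel StBonf StFLmain fam0 fam1)
open Pool.Agent.Helper93.KS (bq Pq SW bmq idq ejq mg Gb Vq AD UQ LQ HU HL FSx StBXQ StT1 StCEL StBMQ)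

/-- the roots modulo `p` -/
private def rt (n p : ℕ) : Finset ℕ := (range p).filter (fun r : ℕ => (p : ℤ) ∣ gk n (kj n r))

private theorem rt_lt (n p s : ℕ) (h : s ∈ rt n p) : s < p := by
  unfold rt at h
  exact mem_range.mp (mem_filter.mp h).1

private theorem gk_mod (n p j : ℕ) : (p : ℤ) ∣ gk n (kj n (j % p)) ↔ (p : ℤ) ∣ gk n (kj n j) := by
  have h : (j : ℤ) = (j % p : ℕ) + (p : ℤ) * (j / p : ℕ) := by
    have := Nat.mod_add_div j p
    exact_mod_cast this.symm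
  have h2 : (p : ℤ) ∣ gk n (kj n j) - gk n (kj n (j % p)) := by
    have h3 : ((kj n j : ℕ) : ℤ) = 30 * ((j % p : ℕ) + (p : ℤ) * (j / p : ℕ)) + (b0 n : ℕ) := by
      rw [← h]
      unfold kj
      push_cast
      ring
    have h4 : ((kj n (j % p) : ℕ) : ℤ) = 30 * (j % p : ℕ) + (b0 n : ℕ) := by
      unfold kj
      push_cast
      ring
    refine ⟨30 * (j / p : ℕ) * (((kj n j : ℕ) : ℤ) + ((kj n (j % p) : ℕ) : ℤ) - n), ?_⟩
    unfold gk
    rw [h3, h4]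
    ring
  constructor
  · intro h3
    have := dvd_add h2 h3
    simpa using this
  · intro h3
    have := dvd_sub h3 h2
    simpa using this

private theorem mod_mem (n p j : ℕ) (hp : 0 < p) : j % p ∈ rt n p ↔ (p : ℤ) ∣ gk n (kj n j) := by
  unfold rt
  rw [mem_filter, mem_range, gk_mod]
  exact ⟨fun h => h.2, fun h => ⟨Nat.mod_lt _ hp, h⟩⟩

private theorem fm_sub (i a : ℕ) (θ : ℝ) (u : ℕ) (D : Finset ℕ) (h : D ∈ fm i a θ u) :
    D ∈ fam0 ⌊(a : ℝ) ^ θ⌋₊ u (Qs a θ) ∪ fam1 ⌊(a : ℝ) ^ θ⌋₊ u (Qs a θ) := by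
  unfold fm at h
  split_ifs at h with h0
  · exact mem_union_left _ h
  · exact h

private theorem fam_sub (w b : ℕ) (Q D : Finset ℕ) (h : D ∈ fam0 w b Q ∪ fam1 w b Q) : D ⊆ Q := by
  rcases mem_union.mp h with h | h
  · simp only [fam0, Finset.mem_filter, Finset.mem_powerset] at h
    exact h.1
  · simp only [fam1, Finset.mem_filter, Finset.mem_powerset] at h
    exact h.1

private theorem Qs_pr (a : ℕ) (θ : ℝ) (p : ℕ) (h : p ∈ Qs a θ) :
    p.Prime ∧ p ≤ ⌊(a : ℝ) ^ θ⌋₊ ∧ (p : ℝ) < (a : ℝ) ^ θ := by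
  unfold Qs at h
  rw [mem_filter, mem_Icc] at h
  exact ⟨h.2.1, h.1.2, h.2.2⟩

private theorem prod_inj (D D' : Finset ℕ) (h : ∀ p ∈ D, p.Prime) (h' : ∀ p ∈ D', p.Prime)
    (he : ∏ p ∈ D, p = ∏ p ∈ D', p) : D = D' := by
  have h1 : (∏ p ∈ D, p).primeFactors = D := Nat.primeFactors_prod h
  have h2 : (∏ p ∈ D', p).primeFactors = D' := Nat.primeFactors_prod h'
  rw [← h1, he, h2]

/-- one set of primes -/
private theorem one_set (n K : ℕ) (D : Finset ℕ) (hD : ∀ p ∈ D, p.Prime) :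
    |∑ j ∈ Icc 1 K, ∏ p ∈ D, (if (p : ℤ) ∣ gk n (kj n j) then (1 : ℝ) else 0) -
      K * ∏ p ∈ D, gn n p| ≤ ∏ p ∈ D, (rn n p : ℝ) := by
  have h1 := Pool.Agent.Helper9.SU.cntT_ALL 0 K (rt n) D
    (fun l hl => ⟨hD l hl, fun s hs => rt_lt n l s hs⟩) 1 0 le_rfl (fun l _ => Nat.coprime_one_right l)
  have h2 : (((Ioc 0 (0 + K)).filter (fun e => e % 1 = 0 % 1 ∧ ∀ l ∈ D, e % l ∈ rt n l)).card : ℝ) =
      ∑ j ∈ Icc 1 K, ∏ p ∈ D, (if (p : ℤ) ∣ gk n (kj n j) then (1 : ℝ) else 0) := by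
    rw [Finset.card_filter]
    push_cast
    have h3 : Ioc 0 (0 + K) = Icc 1 K := by
      ext x
      simp only [mem_Ioc, mem_Icc]
      omega
    rw [h3]
    refine sum_congr rfl fun j _ => ?_
    rw [Finset.prod_ite_zero]
    simp only [Finset.prod_const_one]
    have h4 : (j % 1 = 0 % 1 ∧ ∀ l ∈ D, j % l ∈ rt n l) ↔ ∀ l ∈ D, (l : ℤ) ∣ gk n (kj n j) := by
      constructor
      · intro h l hl
        exact (mod_mem n l j (hD l hl).pos).mp (h.2 l hl)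
      · intro h
        refine ⟨by simp [Nat.mod_one], fun l hl => (mod_mem n l j (hD l hl).pos).mpr (h l hl)⟩
    by_cases h5 : ∀ l ∈ D, (l : ℤ) ∣ gk n (kj n j)
    · rw [if_pos (h4.mpr h5), if_pos h5]
    · rw [if_neg (fun h => h5 (h4.mp h)), if_neg h5]
  rw [h2] at h1
  have h3 : (K : ℝ) / (1 : ℕ) * ∏ l ∈ D, ((rt n l).card : ℝ) / l = K * ∏ p ∈ D, gn n p := by
    rw [Nat.cast_one, div_one]
    rfl
  rw [h3] at h1
  exact h1

private theorem rn_two (hR : StRTA) (n p : ℕ) (hp : p.Prime) : rn n p ≤ 2 := by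
  obtain ⟨h1, h2, -, -, -⟩ := hR n p hp
  by_cases h : p ≤ 5
  · rw [h1 h]
    norm_num
  · refine h2 ?_
    by_contra h3
    have h6 : p = 6 := by omega
    rw [h6] at hp
    exact absurd hp (by norm_num)

private theorem two_pow (T : Finset ℕ) (hT : ∀ p ∈ T, p.Prime) :
    2 ^ T.card ≤ (∏ p ∈ T, p).divisors.card := by
  rw [← Finset.card_powerset]
  refine Finset.card_le_card_of_injOn (fun S => ∏ p ∈ S, p) ?_ ?_
  · intro S hS
    have hS' : S ⊆ T := by simpa using hS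
    simp only [Finset.mem_coe]
    rw [Nat.mem_divisors]
    refine ⟨Finset.prod_dvd_prod_of_subset _ _ _ hS', ?_⟩
    exact Finset.prod_ne_zero_iff.mpr fun p hp => (hT p hp).ne_zero
  · intro S hS S' hS' he
    have h1 : S ⊆ T := by simpa using hS
    have h2 : S' ⊆ T := by simpa using hS'
    exact prod_inj S S' (fun p hp => hT p (h1 hp)) (fun p hp => hT p (h2 hp)) he

private theorem prod_rn (hR : StRTA) (n : ℕ) (T : Finset ℕ) (hT : ∀ p ∈ T, p.Prime) :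
    ∏ p ∈ T, (rn n p : ℝ) ≤ ((∏ p ∈ T, p).divisors.card : ℝ) := by
  calc ∏ p ∈ T, (rn n p : ℝ) ≤ ∏ p ∈ T, (2 : ℝ) := by
        refine Finset.prod_le_prod (fun _ _ => Nat.cast_nonneg _) fun p hp => ?_
        exact_mod_cast rn_two hR n p (hT p hp)
    _ = ((2 ^ T.card : ℕ) : ℝ) := by
        rw [Finset.prod_const]
        push_cast
        rfl
    _ ≤ _ := by exact_mod_cast two_pow T hT

/-- the divisor sums -/
private theorem divsum (a n k : ℕ) (lam : ℕ → ℝ) (h : k ≤ n) (hv : 1 ≤ vk n k)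
    (hlam : ∀ q, lam q ≠ 0 → Squarefree q ∧ q ≤ a ^ 2) :
    ∑ q ∈ (vk n k).divisors, lam q = ∑ q ∈ range (a ^ 2 + 1), lam q *
      ∏ p ∈ q.primeFactors, (if (p : ℤ) ∣ gk n k then (1 : ℝ) else 0) := by
  have hset : ∑ q ∈ (vk n k).divisors, lam q = ∑ q ∈ (range (a ^ 2 + 1)).filter (fun q => q ∣ vk n k), lam q := by
    have e1 : ∑ q ∈ (vk n k).divisors, lam q = ∑ q ∈ (vk n k).divisors.filter (fun q => q ≤ a ^ 2), lam q := by
      rw [Finset.sum_filter]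
      refine sum_congr rfl fun q _ => ?_
      by_cases h0 : lam q = 0
      · rw [h0, ite_self]
      · rw [if_pos (hlam q h0).2]
    rw [e1]
    refine sum_congr ?_ fun _ _ => rfl
    ext q
    rw [mem_filter, mem_filter, Nat.mem_divisors, mem_range]
    constructor
    · rintro ⟨⟨h1, _⟩, h2⟩
      exact ⟨by omega, h1⟩
    · rintro ⟨h1, h2⟩
      exact ⟨⟨h2, by omega⟩, by omega⟩
  rw [hset, Finset.sum_filter]
  refine sum_congr rfl fun q _ => ?_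
  by_cases h0 : lam q = 0
  · rw [h0, zero_mul, ite_self]
  · have hs := (hlam q h0).1
    rw [Finset.prod_ite_zero]
    simp only [Finset.prod_const_one]
    have hiff : q ∣ vk n k ↔ ∀ p ∈ q.primeFactors, (p : ℤ) ∣ gk n k := by
      constructor
      · intro hd p hp
        rw [← dvd_vk n k p h]
        exact (Nat.dvd_of_mem_primeFactors hp).trans hd
      · intro hd
        rw [← Nat.prod_primeFactors_of_squarefree hs]
        refine Finset.prod_primes_dvd _ (fun p hp => (Nat.prime_of_mem_primeFactors hp).prime) ?_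
        intro p hp
        rw [dvd_vk n k p h]
        exact hd p hp
    by_cases h5 : q ∣ vk n k
    · rw [if_pos h5, if_pos (hiff.mp h5), mul_one]
    · rw [if_neg h5, if_neg (fun h => h5 (hiff.mpr h)), mul_zero]

/-- exchange of the sums -/
private theorem alg (K : ℕ) (F : Finset (Finset ℕ)) (Q : Finset ℕ) (lam : ℕ → ℝ)
    (c : ℕ → ℕ → ℝ) (g : ℕ → ℝ) :
    ∑ j ∈ Icc 1 K, (∑ D ∈ F, (-1 : ℝ) ^ D.card * ∏ p ∈ D, c j p) *
        (∑ q ∈ Q, lam q * ∏ p ∈ q.primeFactors, c j p) -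
      (K : ℝ) * (∑ D ∈ F, (-1 : ℝ) ^ D.card * ∏ p ∈ D, g p) *
        (∑ q ∈ Q, lam q * ∏ p ∈ q.primeFactors, g p) =
      ∑ D ∈ F, ∑ q ∈ Q, (-1 : ℝ) ^ D.card * lam q *
        (∑ j ∈ Icc 1 K, ((∏ p ∈ D, c j p) * ∏ p ∈ q.primeFactors, c j p) -
          K * ((∏ p ∈ D, g p) * ∏ p ∈ q.primeFactors, g p)) := by
  have h1 : ∑ j ∈ Icc 1 K, (∑ D ∈ F, (-1 : ℝ) ^ D.card * ∏ p ∈ D, c j p) *
        (∑ q ∈ Q, lam q * ∏ p ∈ q.primeFactors, c j p) =
      ∑ D ∈ F, ∑ q ∈ Q, (-1 : ℝ) ^ D.card * lam q *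
        ∑ j ∈ Icc 1 K, ((∏ p ∈ D, c j p) * ∏ p ∈ q.primeFactors, c j p) := by
    simp only [Finset.sum_mul_sum]
    rw [Finset.sum_comm]
    refine sum_congr rfl fun D _ => ?_
    rw [Finset.sum_comm]
    refine sum_congr rfl fun q _ => ?_
    rw [Finset.mul_sum]
    refine sum_congr rfl fun j _ => ?_
    ring
  have h2 : (K : ℝ) * (∑ D ∈ F, (-1 : ℝ) ^ D.card * ∏ p ∈ D, g p) *
        (∑ q ∈ Q, lam q * ∏ p ∈ q.primeFactors, g p) =
      ∑ D ∈ F, ∑ q ∈ Q, (-1 : ℝ) ^ D.card * lam q *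
        (K * ((∏ p ∈ D, g p) * ∏ p ∈ q.primeFactors, g p)) := by
    rw [mul_assoc, Finset.sum_mul_sum, Finset.mul_sum]
    refine sum_congr rfl fun D _ => ?_
    rw [Finset.mul_sum]
    refine sum_congr rfl fun q _ => ?_
    ring
  rw [h1, h2, ← Finset.sum_sub_distrib]
  refine sum_congr rfl fun D _ => ?_
  rw [← Finset.sum_sub_distrib]
  refine sum_congr rfl fun q _ => ?_
  ring

theorem hTYA (hLv : StLevel) (hR : StRTA) (hDB : StDB) : StTYA := by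
  intro f
  obtain ⟨B₀, hB⟩ := hLv f
  obtain ⟨C, hC1, hCd⟩ := hDB (8 / 1000) (by norm_num)
  have hC0 : 0 < C := by linarith
  refine ⟨1 / (1000 * (B₀ + 1)), by positivity, fun θ hθ hθ1 => ⟨C, hC0, ?_⟩⟩
  intro i a n j0 j ω x B lam hn han hω hj0 hB0 hx0 hx1 hSW
  have hn1 : 1 ≤ a := by omega
  have hnR : (1 : ℝ) ≤ a := by exact_mod_cast hn1
  have hn0 : (0 : ℝ) < a := by linarith
  set w : ℕ := ⌊(a : ℝ) ^ θ⌋₊ with hw
  have hw1 : 1 ≤ w := by
    rw [hw]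
    refine Nat.le_floor ?_
    rw [Nat.cast_one]
    exact Real.one_le_rpow hnR hθ.le
  have hθB : θ * B₀ ≤ 1 / 1000 := by
    have h1 : θ * (1000 * ((B₀ : ℝ) + 1)) ≤ 1 := by
      rwa [le_div_iff₀ (by positivity)] at hθ1
    nlinarith
  have hwR : (w : ℝ) ≤ (a : ℝ) ^ θ := by
    rw [hw]
    exact Nat.floor_le (by positivity)
  have hwB : ((w ^ B₀ : ℕ) : ℝ) ≤ (a : ℝ) ^ (1 / 1000 : ℝ) := by
    push_cast
    calc (w : ℝ) ^ B₀ ≤ ((a : ℝ) ^ θ) ^ B₀ := pow_le_pow_left₀ (by positivity) hwR _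
      _ = (a : ℝ) ^ (θ * B₀) := by rw [← Real.rpow_natCast, ← Real.rpow_mul hn0.le]
      _ ≤ _ := Real.rpow_le_rpow_of_exponent_le hnR hθB
  have hQ : ∀ p ∈ Qs a θ, p.Prime ∧ p ≤ w := fun p hp => ⟨(Qs_pr a θ p hp).1, (Qs_pr a θ p hp).2.1⟩
  have hDQ : ∀ D ∈ fm i a θ f, D ⊆ Qs a θ := fun D hD => fam_sub _ _ _ _ (fm_sub i a θ f D hD)
  have hpr : ∀ D ∈ fm i a θ f, ∀ p ∈ D, p.Prime := fun D hD p hp => (hQ p (hDQ D hD hp)).1
  have hlev : ∀ D ∈ fm i a θ f, ∏ p ∈ D, p ≤ w ^ B₀ := fun D hD =>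
    hB w hw1 (Qs a θ) hQ D (fm_sub i a θ f D hD)
  have hcard : ((fm i a θ f).card : ℝ) ≤ (a : ℝ) ^ (1 / 1000 : ℝ) := by
    have h1 : (fm i a θ f).card ≤ (Icc 1 (w ^ B₀)).card := by
      refine Finset.card_le_card_of_injOn (fun D => ∏ p ∈ D, p) ?_ ?_
      · intro D hD
        have hD' : D ∈ fm i a θ f := by simpa using hD
        have h2 : 1 ≤ ∏ p ∈ D, p := Finset.one_le_prod' (fun p hp => (hpr D hD' p hp).one_lt.le)
        simpa using ⟨h2, hlev D hD'⟩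
      · intro D hD D' hD' he
        have hD1 : D ∈ fm i a θ f := by simpa using hD
        have hD2 : D' ∈ fm i a θ f := by simpa using hD'
        exact prod_inj D D' (hpr D hD1) (hpr D' hD2) he
    rw [Nat.card_Icc, Nat.add_sub_cancel] at h1
    refine le_trans ?_ hwB
    exact_mod_cast h1
  -- the support
  have hxn : (a : ℝ) ^ x ≤ (a : ℝ) ^ (99 / 100 : ℝ) := Real.rpow_le_rpow_of_exponent_le hnR hx1
  have hsq : ∀ q, lam q ≠ 0 → Squarefree q := fun q hq => ((hSW q).2 hq).1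
  have hqle : ∀ q, lam q ≠ 0 → (q : ℝ) ≤ (a : ℝ) ^ (99 / 100 : ℝ) := fun q hq =>
    ((hSW q).2 hq).2.2.trans hxn
  have hqp : ∀ q, lam q ≠ 0 → ∀ p ∈ q.primeFactors, (a : ℝ) ^ θ ≤ (p : ℝ) := by
    intro q hq p hp
    have h1 := ((hSW q).2 hq).2.1 p (Nat.prime_of_mem_primeFactors hp) (Nat.dvd_of_mem_primeFactors hp)
    unfold Pq at h1
    rw [mem_biUnion] at h1
    obtain ⟨i', hi', hp'⟩ := h1
    unfold bq at hp'
    rw [mem_filter] at hp'
    rw [mem_Ico] at hi'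
    refine le_trans ?_ hp'.2.2
    refine Real.rpow_le_rpow_of_exponent_le hnR (hj0.trans ?_)
    refine mul_le_mul_of_nonneg_right ?_ hω.le
    exact_mod_cast hi'.1
  -- one pair
  have hpair : ∀ D ∈ fm i a θ f, ∀ q, lam q ≠ 0 →
      |∑ j' ∈ Icc 1 (a / 60), ((∏ p ∈ D, (if (p : ℤ) ∣ gk n (kj n j') then (1 : ℝ) else 0)) *
          ∏ p ∈ q.primeFactors, (if (p : ℤ) ∣ gk n (kj n j') then (1 : ℝ) else 0)) -
        ((a / 60 : ℕ) : ℝ) * ((∏ p ∈ D, gn n p) * ∏ p ∈ q.primeFactors, gn n p)| ≤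
      C * (a : ℝ) ^ (8 / 1000 : ℝ) := by
    intro D hD q hq
    have hdis : Disjoint D q.primeFactors := by
      rw [Finset.disjoint_left]
      intro p hp hp'
      have h1 := (Qs_pr a θ p (hDQ D hD hp)).2.2
      have h2 := hqp q hq p hp'
      linarith
    have hT : ∀ p ∈ D ∪ q.primeFactors, p.Prime := by
      intro p hp
      rcases mem_union.mp hp with h | h
      · exact hpr D hD p h
      · exact Nat.prime_of_mem_primeFactors h
    have h1 := one_set n (a / 60) (D ∪ q.primeFactors) hT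
    simp only [Finset.prod_union hdis] at h1
    refine h1.trans ?_
    rw [← Finset.prod_union hdis]
    refine (prod_rn hR n _ hT).trans ?_
    have hpos : 1 ≤ ∏ p ∈ D ∪ q.primeFactors, p :=
      Finset.one_le_prod' (fun p hp => (hT p hp).one_lt.le)
    refine (hCd _ hpos).trans ?_
    refine mul_le_mul_of_nonneg_left ?_ hC0.le
    refine Real.rpow_le_rpow (Nat.cast_nonneg _) ?_ (by norm_num)
    rw [Finset.prod_union hdis, Nat.prod_primeFactors_of_squarefree (hsq q hq)]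
    push_cast
    have h2 : ((∏ p ∈ D, p : ℕ) : ℝ) ≤ (a : ℝ) ^ (1 / 1000 : ℝ) := by
      refine le_trans ?_ hwB
      exact_mod_cast hlev D hD
    push_cast at h2
    calc (∏ p ∈ D, (p : ℝ)) * (q : ℝ) ≤ (a : ℝ) ^ (1 / 1000 : ℝ) * (a : ℝ) ^ (99 / 100 : ℝ) :=
          mul_le_mul h2 (hqle q hq) (Nat.cast_nonneg _) (by positivity)
      _ = (a : ℝ) ^ (991 / 1000 : ℝ) := by
          rw [← Real.rpow_add hn0]
          norm_num
      _ ≤ (a : ℝ) ^ (1 : ℝ) := Real.rpow_le_rpow_of_exponent_le hnR (by norm_num)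
      _ = a := Real.rpow_one _
  -- the sum
  have hsq2 : ∀ q, lam q ≠ 0 → Squarefree q ∧ q ≤ a ^ 2 := by
    intro q hq
    refine ⟨hsq q hq, ?_⟩
    have h1 : (q : ℝ) ≤ (a : ℝ) ^ (2 : ℕ) := by
      refine (hqle q hq).trans ?_
      rw [← Real.rpow_natCast]
      exact Real.rpow_le_rpow_of_exponent_le hnR (by norm_num)
    exact_mod_cast h1
  have hrew : ∀ j' ∈ Icc 1 (a / 60), tk i a θ f n j' *
      ∑ q ∈ (vk n (kj n j')).divisors, lam q =
      (∑ D ∈ fm i a θ f, (-1 : ℝ) ^ D.card *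
        ∏ p ∈ D, (if (p : ℤ) ∣ gk n (kj n j') then (1 : ℝ) else 0)) *
      ∑ q ∈ range (a ^ 2 + 1), lam q *
        ∏ p ∈ q.primeFactors, (if (p : ℤ) ∣ gk n (kj n j') then (1 : ℝ) else 0) := by
    intro j' hj'
    rw [mem_Icc] at hj'
    obtain ⟨hk1, hk2⟩ := kj_le n j' a hn hj'.2
    have hv1 : 1 ≤ vk n (kj n j') := by
      unfold vk
      have h3 : 1 ≤ kj n j' ^ 2 := Nat.one_le_pow _ _ hk1
      omega
    rw [divsum a n (kj n j') lam (hk2.trans han) hv1 hsq2]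
    unfold tk
    congr 1
  rw [Finset.sum_congr rfl hrew]
  unfold TK mg
  rw [alg (a / 60) (fm i a θ f) (range (a ^ 2 + 1)) lam
    (fun j' p => if (p : ℤ) ∣ gk n (kj n j') then (1 : ℝ) else 0) (gn n)]
  refine (Finset.abs_sum_le_sum_abs _ _).trans ?_
  have hinner : ∀ D ∈ fm i a θ f, |∑ q ∈ range (a ^ 2 + 1), (-1 : ℝ) ^ D.card * lam q *
        (∑ j ∈ Icc 1 (a / 60), ((∏ p ∈ D, (if (p : ℤ) ∣ gk n (kj n j) then (1 : ℝ) else 0)) *
          ∏ p ∈ q.primeFactors, (if (p : ℤ) ∣ gk n (kj n j) then (1 : ℝ) else 0)) -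
          ((a / 60 : ℕ) : ℝ) * ((∏ p ∈ D, gn n p) * ∏ p ∈ q.primeFactors, gn n p))| ≤
      (a : ℝ) ^ (99 / 100 : ℝ) * (B * (C * (a : ℝ) ^ (8 / 1000 : ℝ))) := by
    intro D hD
    refine (Finset.abs_sum_le_sum_abs _ _).trans ?_
    have h1 : ∀ q ∈ range (a ^ 2 + 1), |(-1 : ℝ) ^ D.card * lam q *
        (∑ j ∈ Icc 1 (a / 60), ((∏ p ∈ D, (if (p : ℤ) ∣ gk n (kj n j) then (1 : ℝ) else 0)) *
          ∏ p ∈ q.primeFactors, (if (p : ℤ) ∣ gk n (kj n j) then (1 : ℝ) else 0)) -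
          ((a / 60 : ℕ) : ℝ) * ((∏ p ∈ D, gn n p) * ∏ p ∈ q.primeFactors, gn n p))| ≤
        if q ∈ Icc 1 ⌊(a : ℝ) ^ (99 / 100 : ℝ)⌋₊ then B * (C * (a : ℝ) ^ (8 / 1000 : ℝ)) else 0 := by
      intro q _
      by_cases h0 : lam q = 0
      · rw [h0, mul_zero, zero_mul, abs_zero]
        split_ifs
        · positivity
        · exact le_rfl
      · have h2 : q ∈ Icc 1 ⌊(a : ℝ) ^ (99 / 100 : ℝ)⌋₊ := by
          rw [mem_Icc]
          exact ⟨Nat.one_le_iff_ne_zero.mpr (hsq q h0).ne_zero, Nat.le_floor (hqle q h0)⟩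
        rw [if_pos h2, abs_mul, abs_mul, abs_pow, abs_neg, abs_one, one_pow, one_mul]
        exact mul_le_mul (hSW q).1 (hpair D hD q h0) (abs_nonneg _) hB0
    refine (Finset.sum_le_sum h1).trans ?_
    rw [← Finset.sum_filter, Finset.sum_const, nsmul_eq_mul]
    refine mul_le_mul_of_nonneg_right ?_ (by positivity)
    have h2 : ((range (a ^ 2 + 1)).filter
        (fun q => q ∈ Icc 1 ⌊(a : ℝ) ^ (99 / 100 : ℝ)⌋₊)).card ≤
        (Icc 1 ⌊(a : ℝ) ^ (99 / 100 : ℝ)⌋₊).card := by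
      refine Finset.card_le_card ?_
      intro q hq
      exact (mem_filter.mp hq).2
    rw [Nat.card_Icc, Nat.add_sub_cancel] at h2
    calc _ ≤ ((⌊(a : ℝ) ^ (99 / 100 : ℝ)⌋₊ : ℕ) : ℝ) := by exact_mod_cast h2
      _ ≤ _ := Nat.floor_le (by positivity)
  refine (Finset.sum_le_card_nsmul _ _ _ hinner).trans ?_
  rw [nsmul_eq_mul]
  calc ((fm i a θ f).card : ℝ) * ((a : ℝ) ^ (99 / 100 : ℝ) * (B * (C * (a : ℝ) ^ (8 / 1000 : ℝ))))
      ≤ (a : ℝ) ^ (1 / 1000 : ℝ) * ((a : ℝ) ^ (99 / 100 : ℝ) *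
          (B * (C * (a : ℝ) ^ (8 / 1000 : ℝ)))) := mul_le_mul_of_nonneg_right hcard (by positivity)
    _ = C * B * ((a : ℝ) ^ (1 / 1000 : ℝ) * ((a : ℝ) ^ (99 / 100 : ℝ) *
          (a : ℝ) ^ (8 / 1000 : ℝ))) := by ring
    _ = C * B * (a : ℝ) ^ (999 / 1000 : ℝ) := by
        rw [← Real.rpow_add hn0, ← Real.rpow_add hn0]
        norm_num

end Pool.Agent.Helper72.PN
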